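import Pool.Agent.Helper69.ES.Easy

/-!
# ES, block Z4: the windows around the isolated zeros of the cells are disjoint and lie in the cells (MP_8958e8)
-/

open MeasureTheory Set Filter Topology
open Pool.Agent.Helper57.Zeta Pool.Agent.Helper57.PC Pool.Agent.Helper57.LH Pool.Agent.Helper78.SG
open Pool.Agent.Helper4.SH Pool.Agent.Helper69.PP Pool.Agent.Helper22.SI
open Pool.Agent.Helper69.SM (wt)
open scoped Interval

namespace Pool.Agent.Helper16.ES

open Pool.Agent.Helper69.ES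
open Pool.Agent.Helper69

/-- a zero of the shortened cells lies in a cell of `J` -/
theorem mem_IS_cell {K D x : ℝ} {J : Finset ℕ} {ρ : ZS} (h : ρ ∈ IS K D x J) :
    ∃ j ∈ J, lf K x j + D / Real.log x ≤ (ρ : ℂ).im ∧ (ρ : ℂ).im ≤ lf K x (j + 1) - D / Real.log x := by
  classical
  unfold IS at h
  rw [Finset.mem_filter] at h
  have h1 := h.2
  unfold St at h1
  rw [mem_iUnion₂] at h1
  obtain ⟨j, hj, h2, h3⟩ := h1
  exact ⟨j, hj, h2, h3⟩

/-- zeros of the shortened clear cells are more than a window away from all other zeros -/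
theorem IS_sep {c : ℝ} (hc : 0 < c) {K D x : ℝ} (hx : 1 < x) (hD : Real.pi * c ≤ D) {J : Finset ℕ}
    (hcl : Clear c K x J) {ρ ρ' : ZS} (hρ : ρ ∈ IS K D x J) (hne : ρ' ≠ ρ) :
    2 * SM.hw c x < |(ρ : ℂ).im - (ρ' : ℂ).im| := by
  have hL : 0 < Real.log x := Real.log_pos hx
  have hD0 : 0 ≤ D / Real.log x := div_nonneg (le_trans (by positivity) hD) hL.le
  obtain ⟨j, hj, h1, h2⟩ := mem_IS_cell hρ
  have h3 : ¬ SM.CloseC c x ρ := hcl j hj ρ (by linarith) (by linarith)
  unfold SM.CloseC at h3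
  push Not at h3
  have h4 := h3.2 ρ' hne
  have hp : 0 < 2 * Real.pi := by positivity
  rw [lt_div_iff₀ hp] at h4
  unfold SM.hw
  have h5 : 2 * (Real.pi * c / Real.log x) = c * (2 * Real.pi) / Real.log x := by ring
  rw [h5, div_lt_iff₀ hL]
  exact h4

/-- the window of a zero of the shortened cells lies in the cells -/
theorem win_sub {c : ℝ} {K D x : ℝ} (hx : 1 < x) (hD : Real.pi * c ≤ D) {J : Finset ℕ} {ρ : ZS}
    (hρ : ρ ∈ IS K D x J) :
    Ioc ((ρ : ℂ).im - SM.hw c x) ((ρ : ℂ).im + SM.hw c x) ⊆ St K 0 x J := by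
  have hL : 0 < Real.log x := Real.log_pos hx
  have hw : SM.hw c x ≤ D / Real.log x := by
    unfold SM.hw
    exact div_le_div_of_nonneg_right hD hL.le
  obtain ⟨j, hj, h1, h2⟩ := mem_IS_cell hρ
  intro t ht
  unfold St
  rw [mem_iUnion₂]
  refine ⟨j, hj, ?_, ?_⟩
  · rw [zero_div, add_zero]
    linarith [ht.1]
  · rw [zero_div, sub_zero]
    linarith [ht.2]

/-- a continuous function is integrable over the cells -/
theorem St_int {F : ℝ → ℝ} (hF : Continuous F) (K D x : ℝ) (J : Finset ℕ) : IntegrableOn F (St K D x J) := by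
  unfold St
  rw [integrableOn_finset_iUnion]
  exact fun j _ => hF.continuousOn.integrableOn_compact isCompact_Icc

/-- Z4: the windows are disjoint and lie in the cells -/
theorem upper_cells {c : ℝ} (hc : 0 < c) {F : ℝ → ℝ} (hF : Continuous F) (hF0 : ∀ t, 0 ≤ F t) {K D x : ℝ} (hx : 1 < x)
    (hK : 0 ≤ K) (hD : Real.pi * c ≤ D) {J : Finset ℕ} (hJ : InW K x J) (hcl : Clear c K x J) :
    ∑ ρ ∈ IS K D x J, (∫ t in ((ρ : ℂ).im - SM.hw c x)..((ρ : ℂ).im + SM.hw c x), F t) ≤ ∫ t in St K 0 x J, F t := by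
  have hL : 0 < Real.log x := Real.log_pos hx
  have hw0 : 0 ≤ SM.hw c x := by
    unfold SM.hw
    positivity
  have h1 : ∀ ρ ∈ IS K D x J, (∫ t in ((ρ : ℂ).im - SM.hw c x)..((ρ : ℂ).im + SM.hw c x), F t) =
      ∫ t in Ioc ((ρ : ℂ).im - SM.hw c x) ((ρ : ℂ).im + SM.hw c x), F t := by
    intro ρ _
    exact intervalIntegral.integral_of_le (by linarith)
  have hdis : (IS K D x J : Set ZS).Pairwise (Function.onFun Disjoint
      fun ρ : ZS => Ioc ((ρ : ℂ).im - SM.hw c x) ((ρ : ℂ).im + SM.hw c x)) := by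
    intro ρ hρ ρ' _ hne
    show Disjoint _ _
    rw [Set.disjoint_left]
    intro t ht ht'
    have h2 := IS_sep hc hx hD hcl (Finset.mem_coe.mp hρ) hne.symm
    have h3 : |(ρ : ℂ).im - (ρ' : ℂ).im| ≤ 2 * SM.hw c x := by
      rw [abs_le]
      constructor
      · linarith [ht.2, ht'.1, ht.1, ht'.2]
      · linarith [ht.2, ht'.1, ht.1, ht'.2]
    linarith
  rw [Finset.sum_congr rfl h1, ← integral_biUnion_finset (IS K D x J) (fun ρ _ => measurableSet_Ioc) hdis
    (fun ρ _ => (hF.integrableOn_Icc (a := (ρ : ℂ).im - SM.hw c x) (b := (ρ : ℂ).im + SM.hw c x)).mono_set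
      Ioc_subset_Icc_self)]
  refine setIntegral_mono_set (St_int hF K 0 x J) ?_ ?_
  · exact Eventually.of_forall fun t => hF0 t
  · refine LE.le.eventuallyLE ?_
    exact iUnion₂_subset fun ρ hρ => win_sub hx hD hρ

end Pool.Agent.Helper16.ES
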